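import Pool.Agent.Helper234.Boundary

/-!
# Sets with `|hA| = hm - h + 1 = p`, `h ≥ 3`

Let `G` be a finite abelian group of order `n`, let `p` be the least prime dividing `n`, and let
`h ≥ 3` and `m` be such that `hm - h + 1 = p`. Then every `m`-subset `A` of `G` has `|hA| ≥ p`, and
`|hA| = p` exactly when `A` is an arithmetic progression or `A` is contained in a coset of a
subgroup of order `p`.

Tools: Kneser's theorem and Vosper's theorem for sumsets `|A+B| ≤ p - 2` in `G`.
-/

set_option autoImplicit false

namespace Pool.Agent.Results.MP_4c924c_co.BoundaryPrime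

open scoped Pointwise
open Pool.Agent.Helper549.Kneser Pool.Agent.Helper234.NonSpanning

theorem result {G : Type} [AddCommGroup G] [Fintype G] (h m : ℕ) (hh : 3 ≤ h)
    (hG : 2 ≤ Fintype.card G) (hm : h * m + 1 = (Fintype.card G).minFac + h)
    (A : Finset G) (hA : A.card = m) :
    (Fintype.card G).minFac ≤ (hfold h A).ncard ∧
    ((hfold h A).ncard = h * m - h + 1 ↔
      (∃ a g : G, (A : Set G) = {x | ∃ i : ℕ, i < m ∧ x = a + i • g}) ∨
      (∃ (H : AddSubgroup G) (a : G), Nat.card H = (Fintype.card G).minFac ∧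
        ∀ x ∈ A, x - a ∈ H)) := by
  classical
  set n := Fintype.card G with hn
  set p := n.minFac with hpdef
  have hpp : p.Prime := Nat.minFac_prime (by omega)
  have hpn : p ≤ n := Nat.minFac_le (by omega)
  have hp2 := hpp.two_le
  have hfsc : ∀ H : AddSubgroup G, (fs H).card = Nat.card H := by
    intro H
    rw [Nat.card_eq_fintype_card, Fintype.card_subtype]
    congr 1
  have hp : ∀ H : AddSubgroup G, H ≠ ⊥ → p ≤ (fs H).card := by
    intro H hH
    rw [hfsc]
    have h1 : Nat.card H ∣ n := by
      rw [hn, ← Nat.card_eq_fintype_card]; exact AddSubgroup.card_addSubgroup_dvd_card H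
    have h2 : 2 ≤ Nat.card H := by
      have h3 : 0 < Nat.card H := Nat.card_pos
      have h4 : Nat.card H ≠ 1 := fun h5 => hH (AddSubgroup.card_eq_one.mp h5)
      omega
    exact Nat.minFac_le_of_dvd h2 h1
  have hm1 : 1 ≤ m := by
    rcases Nat.eq_zero_or_pos m with rfl | h0
    · rw [mul_zero] at hm; omega
    · exact h0
  obtain ⟨k, rfl⟩ : ∃ k, m = k + 1 := ⟨m - 1, by omega⟩
  have hmul : h * (k + 1) = h * k + h := by ring
  have hpm : p = h * (k + 1 - 1) + 1 := by
    rw [Nat.add_sub_cancel]; omega
  have hAn : A.Nonempty := by rw [← Finset.card_pos]; omega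
  have hcard : (hfold h A).ncard = (h • A).card := by
    rw [hfold_eq, Set.ncard_coe_finset]
  have hgoal : h * (k + 1) - h + 1 = p := by omega
  refine ⟨?_, ?_⟩
  · rw [hcard]
    have := Pool.Agent.Helper234.Boundary.multi_lower hp A hAn h (by omega)
    rwa [hA, ← hpm, min_self] at this
  · rw [hcard, hgoal, Pool.Agent.Helper234.Boundary.main hp hpp hpn h (k + 1) hh hpm A hA]
    have e1 : ∀ a g : G, (A = (Finset.range (k + 1)).image (fun i : ℕ => a + i • g)) ↔
        ((A : Set G) = {x | ∃ i : ℕ, i < k + 1 ∧ x = a + i • g}) := by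
      intro a g
      rw [← Finset.coe_inj]
      have : (((Finset.range (k + 1)).image (fun i : ℕ => a + i • g) : Finset G) : Set G) =
          {x | ∃ i : ℕ, i < k + 1 ∧ x = a + i • g} := by
        ext x
        simp only [Finset.coe_image, Finset.coe_range, Set.mem_image, Set.mem_Iio]
        constructor
        · rintro ⟨i, hi, rfl⟩; exact ⟨i, hi, rfl⟩
        · rintro ⟨i, hi, rfl⟩; exact ⟨i, hi, rfl⟩
      rw [this]
    simp only [e1, hfsc]

end Pool.Agent.Results.MP_4c924c_co.BoundaryPrime
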